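import Mathlib

namespace Pool.Agent.Results.MP_883b72_an.NoMinimalAlmostSpec

open Filter Topology Finset

universe u

/-- `g` is a mistake function with threshold `ε₀` (extended to `ε > ε₀` by `g n ε = g n ε₀`). -/
def IsMistakeFunction (g : ℕ → ℝ → ℕ) (ε₀ : ℝ) : Prop :=
  0 < ε₀ ∧
  (∀ ε, 0 < ε → ε ≤ ε₀ → (∀ n, 1 ≤ n → g n ε ≤ g (n + 1) ε) ∧
    Tendsto (fun n : ℕ => (g n ε : ℝ) / n) atTop (𝓝 0)) ∧
  ∀ ε, ε₀ < ε → ∀ n, g n ε = g n ε₀

/-- The almost specification property of `f : X → X`. -/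
def AlmostSpecification {X : Type u} [MetricSpace X] (f : X → X) : Prop :=
  ∃ (g : ℕ → ℝ → ℕ) (ε₀ : ℝ) (k : ℝ → ℕ), IsMistakeFunction g ε₀ ∧
    (∀ ε, 0 < ε → ∀ n, 1 ≤ n → k ε ≤ n → g n ε < n) ∧
    ∀ (m : ℕ) (ε : Fin m → ℝ) (x : Fin m → X) (n : Fin m → ℕ), 1 ≤ m →
      (∀ j, 0 < ε j) → (∀ j, 1 ≤ n j ∧ k (ε j) ≤ n j) →
      ∃ z : X, ∀ j : Fin m, ∃ Λ : Finset ℕ, Λ ⊆ range (n j) ∧
        n j ≤ Λ.card + g (n j) (ε j) ∧
        ∀ i ∈ Λ, dist (f^[(∑ s ∈ univ.filter (fun s => s < j), n s) + i] z) (f^[i] (x j)) < ε j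

/-- `f` is minimal: the only nonempty closed set mapped into itself is the whole space. -/
def IsMinimalMap {X : Type u} [MetricSpace X] (f : X → X) : Prop :=
  ∀ K : Set X, IsClosed K → K.Nonempty → (∀ x ∈ K, f x ∈ K) → K = Set.univ

section

variable {X : Type u} [MetricSpace X] [CompactSpace X] {f : X → X}

omit [CompactSpace X] in
/-- In a minimal system the orbit of every point enters every nonempty open set. -/
theorem exists_iterate_mem (hf : Continuous f) (hmin : IsMinimalMap f) {V : Set X}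
    (hV : IsOpen V) (hne : V.Nonempty) (z : X) : ∃ s, f^[s] z ∈ V := by
  set K : Set X := closure (Set.range fun s : ℕ => f^[s] z) with hK
  have hKu : K = Set.univ := by
    apply hmin K isClosed_closure ⟨z, subset_closure ⟨0, rfl⟩⟩
    intro x hx
    have h1 : f '' closure (Set.range fun s : ℕ => f^[s] z) ⊆
        closure (f '' Set.range fun s : ℕ => f^[s] z) := image_closure_subset_closure_image hf
    have h2 : f '' (Set.range fun s : ℕ => f^[s] z) ⊆ Set.range fun s : ℕ => f^[s] z := by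
      rintro _ ⟨_, ⟨s, rfl⟩, rfl⟩
      exact ⟨s + 1, by simp only [Function.iterate_succ_apply']⟩
    exact closure_mono h2 (h1 ⟨x, hx, rfl⟩)
  obtain ⟨v, hv⟩ := hne
  have hvK : v ∈ K := by rw [hKu]; trivial
  obtain ⟨w, hwV, s, rfl⟩ := mem_closure_iff.1 hvK V hV hv
  exact ⟨s, hwV⟩

/-- Uniform return time. -/
theorem exists_uniform_time (hf : Continuous f) (hmin : IsMinimalMap f) {V : Set X}
    (hV : IsOpen V) (hne : V.Nonempty) : ∃ L : ℕ, ∀ z : X, ∃ s, s < L ∧ f^[s] z ∈ V := by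
  have hcov : (Set.univ : Set X) ⊆ ⋃ s : ℕ, (f^[s]) ⁻¹' V := by
    intro z _
    obtain ⟨s, hs⟩ := exists_iterate_mem hf hmin hV hne z
    exact Set.mem_iUnion.2 ⟨s, hs⟩
  obtain ⟨t, ht⟩ := isCompact_univ.elim_finite_subcover (fun s : ℕ => (f^[s]) ⁻¹' V)
    (fun s => hV.preimage (hf.iterate s)) hcov
  refine ⟨t.sup id + 1, fun z => ?_⟩
  obtain ⟨s, hst, hs⟩ := Set.mem_iUnion₂.1 (ht (Set.mem_univ z))
  exact ⟨s, Nat.lt_succ_of_le (Finset.le_sup (f := id) hst), hs⟩

/-- The key estimate: few `i < n` with `f^i y` and `f^(i+n) y` far apart. -/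
theorem key (hf : Continuous f) (hmin : IsMinimalMap f) {g : ℕ → ℝ → ℕ} {k : ℝ → ℕ}
    (hspec : ∀ (m : ℕ) (ε : Fin m → ℝ) (x : Fin m → X) (n : Fin m → ℕ), 1 ≤ m →
      (∀ j, 0 < ε j) → (∀ j, 1 ≤ n j ∧ k (ε j) ≤ n j) →
      ∃ z : X, ∀ j : Fin m, ∃ Λ : Finset ℕ, Λ ⊆ range (n j) ∧
        n j ≤ Λ.card + g (n j) (ε j) ∧
        ∀ i ∈ Λ, dist (f^[(∑ s ∈ univ.filter (fun s => s < j), n s) + i] z) (f^[i] (x j)) < ε j)
    {ε : ℝ} (hε : 0 < ε) {n : ℕ} (hn : 1 ≤ n) (hk : k ε ≤ n) (y : X) :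
    ((range n).filter (fun i => 4 * ε ≤ dist (f^[i] y) (f^[i + n] y))).card ≤ 3 * g n ε := by
  -- a neighbourhood of `y` whose points follow `y` for time `2 n`
  have hV : ∃ V : Set X, IsOpen V ∧ y ∈ V ∧ ∀ v ∈ V, ∀ i < 2 * n, dist (f^[i] v) (f^[i] y) < ε := by
    refine ⟨⋂ i ∈ range (2 * n), (f^[i]) ⁻¹' Metric.ball (f^[i] y) ε, ?_, ?_, ?_⟩
    · exact isOpen_biInter_finset fun i _ => Metric.isOpen_ball.preimage (hf.iterate i)
    · simp [hε]
    · intro v hv i hi
      have := Set.mem_iInter₂.1 hv i (mem_range.2 hi)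
      exact this
  obtain ⟨V, hVo, hyV, hVf⟩ := hV
  obtain ⟨L, hL⟩ := exists_uniform_time hf hmin hVo ⟨y, hyV⟩
  -- trace `m` copies of the orbit segment of `y`
  obtain ⟨z, hz⟩ := hspec (L + 3) (fun _ => ε) (fun _ => y) (fun _ => n) (by omega)
    (fun _ => hε) (fun _ => ⟨hn, hk⟩)
  have hz' : ∀ a : ℕ, a < L + 3 → ∃ Λ : Finset ℕ, Λ ⊆ range n ∧ n ≤ Λ.card + g n ε ∧
      ∀ i ∈ Λ, dist (f^[a * n + i] z) (f^[i] y) < ε := by
    intro a ha
    obtain ⟨Λ, h1, h2, h3⟩ := hz ⟨a, ha⟩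
    refine ⟨Λ, h1, h2, fun i hi => ?_⟩
    have h4 := h3 i hi
    have h5 : (∑ s ∈ univ.filter (fun s : Fin (L + 3) => s < ⟨a, ha⟩), n) = a * n := by
      rw [Finset.sum_const, smul_eq_mul]
      congr 1
      have e : (univ.filter fun s : Fin (L + 3) => s < ⟨a, ha⟩) = Iio ⟨a, ha⟩ := by
        ext s; simp
      rw [e, Fin.card_Iio]
    rwa [h5] at h4
  choose! Λ hΛ1 hΛ2 hΛ3 using hz'
  obtain ⟨s, hsL, hsV⟩ := hL z
  have hfollow : ∀ i < 2 * n, dist (f^[s + i] z) (f^[i] y) < ε := by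
    intro i hi
    have := hVf _ hsV i hi
    rwa [← Function.iterate_add_apply, add_comm i s] at this
  set a₀ := s / n with ha₀
  have ha₀L : a₀ < L := lt_of_le_of_lt (Nat.div_le_self s n) hsL
  -- bad indices
  set B : Finset ℕ := (range n \ Λ a₀) ∪ ((range n \ Λ (a₀ + 1)) ∪ (range n \ Λ (a₀ + 2))) with hB
  have hcard : ∀ a < L + 3, (range n \ Λ a).card ≤ g n ε := by
    intro a ha
    have h1 := hΛ2 a ha
    have h2 := Finset.card_sdiff_add_card_eq_card (hΛ1 a ha)
    rw [card_range] at h2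
    omega
  have hBcard : B.card ≤ 3 * g n ε := by
    have h1 := hcard a₀ (by omega)
    have h2 := hcard (a₀ + 1) (by omega)
    have h3 := hcard (a₀ + 2) (by omega)
    have h4 : B.card ≤ (range n \ Λ a₀).card +
        ((range n \ Λ (a₀ + 1)) ∪ (range n \ Λ (a₀ + 2))).card := Finset.card_union_le _ _
    have h5 := Finset.card_union_le (range n \ Λ (a₀ + 1)) (range n \ Λ (a₀ + 2))
    omega
  refine le_trans ?_ hBcard
  refine Finset.card_le_card_of_injOn (fun i => (s + i) % n) ?_ ?_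
  · intro i hi
    simp only [coe_filter, Finset.mem_range, Set.mem_ofPred_eq] at hi
    obtain ⟨hin, hbad⟩ := hi
    have hb : (s + i) % n < n := Nat.mod_lt _ (by omega)
    have hdecomp : s + i = (s + i) / n * n + (s + i) % n := (Nat.div_add_mod' _ _).symm
    have hdiv : (s + i) / n = a₀ ∨ (s + i) / n = a₀ + 1 := by
      have h1 : a₀ ≤ (s + i) / n := Nat.div_le_div_right (by omega)
      have h2 : (s + i) / n ≤ a₀ + 1 := by
        have h3 : (s + i) / n ≤ (s + n) / n := Nat.div_le_div_right (by omega)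
        rwa [Nat.add_div_right _ (by omega)] at h3
      omega
    by_contra hnB
    simp only [hB, coe_union, Set.mem_union, Finset.coe_sdiff, Set.mem_sdiff, Finset.coe_range,
      Set.mem_Iio, Finset.mem_coe, not_or, not_and, not_not] at hnB
    obtain ⟨hn0, hn1, hn2⟩ := hnB
    have e0 := hn0 hb
    have e1 := hn1 hb
    have e2 := hn2 hb
    set b := (s + i) % n with hbdef
    have close : ∀ a, a = a₀ ∨ a = a₀ + 1 → s + i = a * n + b →
        dist (f^[i] y) (f^[i + n] y) < 4 * ε := by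
      intro a ha hsi
      have m1 : b ∈ Λ a := by rcases ha with rfl | rfl <;> assumption
      have m2 : b ∈ Λ (a + 1) := by rcases ha with rfl | rfl <;> assumption
      have d1 := hΛ3 a (by omega) b m1
      have d2 := hΛ3 (a + 1) (by omega) b m2
      have d3 := hfollow i (by omega)
      have d4 := hfollow (i + n) (by omega)
      rw [hsi] at d3
      have e4 : s + (i + n) = (a + 1) * n + b := by
        rw [← add_assoc, hsi]; ring
      rw [e4] at d4
      have t1 := dist_triangle4 (f^[i] y) (f^[a * n + b] z) (f^[b] y) (f^[(a + 1) * n + b] z)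
      have t2 := dist_triangle (f^[i] y) (f^[(a + 1) * n + b] z) (f^[i + n] y)
      rw [dist_comm (f^[i] y) (f^[a * n + b] z)] at t1
      rw [dist_comm (f^[b] y)] at t1
      linarith
    rcases hdiv with h | h
    · rw [h] at hdecomp
      exact absurd hbad (not_le.2 (close a₀ (Or.inl rfl) hdecomp))
    · rw [h] at hdecomp
      exact absurd hbad (not_le.2 (close (a₀ + 1) (Or.inr rfl) hdecomp))
  · intro i hi j hj hij
    simp only [coe_filter, Finset.mem_range, Set.mem_ofPred_eq] at hi hj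
    simp only at hij
    have h1 : i ≡ j [MOD n] := Nat.ModEq.add_left_cancel' s hij
    exact Nat.ModEq.eq_of_lt_of_lt h1 hi.1 hj.1

/-- Bound for one block. -/
theorem block (hf : Continuous f) (hmin : IsMinimalMap f) {g : ℕ → ℝ → ℕ} {k : ℝ → ℕ}
    (hspec : ∀ (m : ℕ) (ε : Fin m → ℝ) (x : Fin m → X) (n : Fin m → ℕ), 1 ≤ m →
      (∀ j, 0 < ε j) → (∀ j, 1 ≤ n j ∧ k (ε j) ≤ n j) →
      ∃ z : X, ∀ j : Fin m, ∃ Λ : Finset ℕ, Λ ⊆ range (n j) ∧
        n j ≤ Λ.card + g (n j) (ε j) ∧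
        ∀ i ∈ Λ, dist (f^[(∑ s ∈ univ.filter (fun s => s < j), n s) + i] z) (f^[i] (x j)) < ε j)
    {ε : ℝ} (hε : 0 < ε) {n : ℕ} (hn : 1 ≤ n) (hk : k ε ≤ n) {D : ℝ} (hD : ∀ a b : X, dist a b ≤ D)
    (y : X) :
    ∑ i ∈ range n, dist (f^[i] y) (f^[i + n] y) ≤ 4 * ε * n + 3 * g n ε * D := by
  have h := key hf hmin hspec hε hn hk y
  have hD0 : 0 ≤ D := dist_nonneg.trans (hD y y)
  rw [← Finset.sum_filter_add_sum_filter_not (range n)
    (fun i => 4 * ε ≤ dist (f^[i] y) (f^[i + n] y))]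
  have h1 : ∑ i ∈ (range n).filter (fun i => 4 * ε ≤ dist (f^[i] y) (f^[i + n] y)),
      dist (f^[i] y) (f^[i + n] y) ≤ 3 * g n ε * D := by
    calc _ ≤ ∑ _i ∈ (range n).filter (fun i => 4 * ε ≤ dist (f^[i] y) (f^[i + n] y)), D :=
          Finset.sum_le_sum fun i _ => hD _ _
      _ = ((range n).filter (fun i => 4 * ε ≤ dist (f^[i] y) (f^[i + n] y))).card * D := by
          rw [Finset.sum_const, nsmul_eq_mul]
      _ ≤ 3 * g n ε * D := by
          apply mul_le_mul_of_nonneg_right _ hD0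
          exact_mod_cast h
  have h2 : ∑ i ∈ (range n).filter (fun i => ¬ 4 * ε ≤ dist (f^[i] y) (f^[i + n] y)),
      dist (f^[i] y) (f^[i + n] y) ≤ 4 * ε * n := by
    calc _ ≤ ∑ _i ∈ (range n).filter (fun i => ¬ 4 * ε ≤ dist (f^[i] y) (f^[i + n] y)),
            4 * ε := by
          refine Finset.sum_le_sum fun i hi => ?_
          rw [Finset.mem_filter] at hi
          exact (not_le.1 hi.2).le
      _ = ((range n).filter (fun i => ¬ 4 * ε ≤ dist (f^[i] y) (f^[i + n] y))).card * (4 * ε) := by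
          rw [Finset.sum_const, nsmul_eq_mul]
      _ ≤ n * (4 * ε) := by
          apply mul_le_mul_of_nonneg_right _ (by positivity)
          have := Finset.card_filter_le (range n)
            (fun i => ¬ 4 * ε ≤ dist (f^[i] y) (f^[i + n] y))
          rw [card_range] at this
          exact_mod_cast this
      _ = 4 * ε * n := by ring
  linarith

/-- Bound for several consecutive blocks. -/
theorem blocks (hf : Continuous f) (hmin : IsMinimalMap f) {g : ℕ → ℝ → ℕ} {k : ℝ → ℕ}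
    (hspec : ∀ (m : ℕ) (ε : Fin m → ℝ) (x : Fin m → X) (n : Fin m → ℕ), 1 ≤ m →
      (∀ j, 0 < ε j) → (∀ j, 1 ≤ n j ∧ k (ε j) ≤ n j) →
      ∃ z : X, ∀ j : Fin m, ∃ Λ : Finset ℕ, Λ ⊆ range (n j) ∧
        n j ≤ Λ.card + g (n j) (ε j) ∧
        ∀ i ∈ Λ, dist (f^[(∑ s ∈ univ.filter (fun s => s < j), n s) + i] z) (f^[i] (x j)) < ε j)
    {ε : ℝ} (hε : 0 < ε) {n : ℕ} (hn : 1 ≤ n) (hk : k ε ≤ n) {D : ℝ} (hD : ∀ a b : X, dist a b ≤ D)
    (y : X) (q : ℕ) :
    ∑ i ∈ range (q * n), dist (f^[i] y) (f^[i + n] y) ≤ q * (4 * ε * n + 3 * g n ε * D) := by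
  induction q with
  | zero => simp
  | succ q ih =>
    rw [Nat.succ_mul, Finset.sum_range_add]
    have h1 := block hf hmin hspec hε hn hk hD (f^[q * n] y)
    have h2 : ∀ i, dist (f^[q * n + i] y) (f^[q * n + i + n] y)
        = dist (f^[i] (f^[q * n] y)) (f^[i + n] (f^[q * n] y)) := by
      intro i
      rw [← Function.iterate_add_apply, ← Function.iterate_add_apply]
      congr 2 <;> ring_nf
    simp only [h2]
    push_cast
    linarith

end

/-- A minimal system on a nonempty compact metric space with the almost specification property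
consists of a single point. -/
theorem result : ∀ (X : Type u) [MetricSpace X] [CompactSpace X] [Nonempty X] (f : X → X),
    Continuous f → IsMinimalMap f → AlmostSpecification f → ∃ a : X, ∀ x : X, x = a := by
  intro X _ _ _ f hf hmin hspec
  obtain ⟨g, ε₀, k, ⟨hε₀, hg, -⟩, -, hspec⟩ := hspec
  -- a bound for the metric
  obtain ⟨D, hD⟩ : ∃ D : ℝ, ∀ a b : X, dist a b ≤ D := by
    obtain ⟨D, hD⟩ := (isCompact_univ (X := X)).isBounded.subset_closedBall (Classical.arbitrary X)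
    refine ⟨D + D, fun a b => ?_⟩
    have h1 := hD (Set.mem_univ a)
    have h2 := hD (Set.mem_univ b)
    rw [Metric.mem_closedBall] at h1 h2
    have h3 := dist_triangle_right a b (Classical.arbitrary X)
    linarith
  -- the infimum of `dist x (f x)` is attained
  obtain ⟨p, -, hp⟩ := (isCompact_univ (X := X)).exists_isMinOn Set.univ_nonempty
    (f := fun x => dist x (f x)) (continuous_id.dist hf).continuousOn
  have hp' : ∀ x, dist p (f p) ≤ dist x (f x) := fun x => hp (Set.mem_univ x)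
  have hzero : dist p (f p) = 0 := by
    by_contra hne
    have hpos : 0 < dist p (f p) := lt_of_le_of_ne dist_nonneg (Ne.symm hne)
    have hD0 : 0 ≤ D := dist_nonneg.trans (hD p p)
    set ε := min ε₀ (dist p (f p) / 16) with hεdef
    have hε : 0 < ε := lt_min hε₀ (by positivity)
    have hε1 : ε ≤ dist p (f p) / 16 := min_le_right _ _
    have hlim := (hg ε hε (min_le_left _ _)).2
    -- `3 * D * g n ε / n` is eventually small
    have hev : ∀ᶠ n : ℕ in atTop, (g n ε : ℝ) / n < dist p (f p) / (16 * (3 * D + 1)) :=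
      (tendsto_order.1 hlim).2 _ (by positivity)
    obtain ⟨N, hN⟩ := eventually_atTop.1 hev
    set n := max N (max 1 (k ε)) with hn
    have hn1 : 1 ≤ n := (le_max_left _ _).trans (le_max_right _ _)
    have hnk : k ε ≤ n := (le_max_right _ _).trans (le_max_right _ _)
    have hnN : N ≤ n := le_max_left _ _
    have b1 := blocks hf hmin hspec hε hn1 hnk hD p (n + 1)
    have b2 := blocks hf hmin hspec hε (n := n + 1) (by omega) (by omega) hD p n
    have hpos_n : (0 : ℝ) < n := by exact_mod_cast hn1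
    have small : ∀ m : ℕ, N ≤ m → (0 : ℝ) < m → 3 * (g m ε : ℝ) * D ≤ dist p (f p) / 16 * m := by
      intro m hm hm0
      have h1 := hN m hm
      rw [div_lt_div_iff₀ hm0 (by positivity)] at h1
      have h2 : 3 * (g m ε : ℝ) * D ≤ (g m ε : ℝ) * (3 * D + 1) := by
        have : (0 : ℝ) ≤ g m ε := Nat.cast_nonneg _
        nlinarith
      nlinarith
    have s1 := small n hnN hpos_n
    have s2 := small (n + 1) (by omega) (by positivity)
    -- the distances `dist (f^(i+n) p) (f^(i+n+1) p)`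
    have low : ((n * (n + 1) : ℕ) : ℝ) * dist p (f p) ≤
        ∑ i ∈ range (n * (n + 1)), dist (f^[i + n] p) (f^[i + (n + 1)] p) := by
      rw [← nsmul_eq_mul, ← Finset.card_range (n * (n + 1)), ← Finset.sum_const]
      rw [Finset.card_range]
      refine Finset.sum_le_sum fun i _ => ?_
      have := hp' (f^[i + n] p)
      rwa [← Function.iterate_succ_apply' f (i + n) p] at this
    have up : ∑ i ∈ range (n * (n + 1)), dist (f^[i + n] p) (f^[i + (n + 1)] p) ≤
        ∑ i ∈ range (n * (n + 1)), dist (f^[i] p) (f^[i + n] p) +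
        ∑ i ∈ range (n * (n + 1)), dist (f^[i] p) (f^[i + (n + 1)] p) := by
      rw [← Finset.sum_add_distrib]
      exact Finset.sum_le_sum fun i _ => dist_triangle_left _ _ _
    rw [mul_comm (n + 1) n] at b1
    push_cast at b1 b2 low s2
    have e1 : ((n : ℝ) + 1) * (4 * ε * n + 3 * g n ε * D)
        ≤ ((n : ℝ) + 1) * (4 * (dist p (f p) / 16) * n + dist p (f p) / 16 * n) := by
      apply mul_le_mul_of_nonneg_left _ (by positivity)
      have : 4 * ε * n ≤ 4 * (dist p (f p) / 16) * n := by gcongr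
      linarith
    have e2 : (n : ℝ) * (4 * ε * (n + 1) + 3 * g (n + 1) ε * D)
        ≤ (n : ℝ) * (4 * (dist p (f p) / 16) * (n + 1) + dist p (f p) / 16 * (n + 1)) := by
      apply mul_le_mul_of_nonneg_left _ (by positivity)
      have : 4 * ε * (n + 1) ≤ 4 * (dist p (f p) / 16) * (n + 1 : ℝ) := by gcongr
      linarith
    have e3 : 0 < (n : ℝ) * (n + 1) * dist p (f p) := by positivity
    nlinarith
  have hfix : f p = p := (dist_eq_zero.1 hzero).symm
  have hu := hmin {p} isClosed_singleton ⟨p, rfl⟩ (by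
    intro x hx
    rw [Set.mem_singleton_iff] at hx ⊢
    rw [hx, hfix])
  refine ⟨p, fun x => ?_⟩
  have : x ∈ ({p} : Set X) := by rw [hu]; trivial
  exact this

end Pool.Agent.Results.MP_883b72_an.NoMinimalAlmostSpec
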