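import Pool.Agent.Lib.MP_883b72_an.AS.Baire

namespace Pool.Agent.Results.MP_883b72_an.UncountablyManyErgodic

open MeasureTheory
open Pool.Agent.Lib.MP_883b72_an.AS (AverageShadowing IsMinimalMap)

universe u

/-- **Average shadowing with countably many ergodic measures.**  A continuous map of a nonempty
compact metric space which has the average shadowing property and only countably many ergodic
invariant probability measures has exactly one invariant probability measure, the point mass at
a fixed point; if it is minimal, the space is a point. -/
theorem result : ∀ (X : Type u) [MetricSpace X] [CompactSpace X] [Nonempty X]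
    [MeasurableSpace X] [BorelSpace X] (f : X → X), Continuous f → AverageShadowing f →
    {μ : Measure X | IsProbabilityMeasure μ ∧ Ergodic f μ}.Countable →
    ∃ p : X, f p = p ∧ (∀ μ : Measure X, IsProbabilityMeasure μ → μ.map f = μ →
      μ = Measure.dirac p) ∧ (IsMinimalMap f → ∀ x : X, x = p) := by
  intro X _ _ _ _ _ f hf hsh hc
  obtain ⟨p, hp, h⟩ := Pool.Agent.Lib.MP_883b72_an.AS.countable_case hf hsh hc
  refine ⟨p, hp, h, fun hmin x => ?_⟩
  have := hmin {p} isClosed_singleton (Set.singleton_nonempty p) (by
    intro y hy
    rw [Set.mem_singleton_iff] at hy ⊢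
    rw [hy, hp])
  have hx : x ∈ ({p} : Set X) := by
    rw [this]
    trivial
  exact hx

end Pool.Agent.Results.MP_883b72_an.UncountablyManyErgodic
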